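import Pool.Agent.Helper90.RK2.Stm

/-! Module DIV (helper30): an integral valued quotient of polynomials is a polynomial. -/

set_option autoImplicit false

namespace Pool.Agent.Helper90.RK2.DIV

open Polynomial Filter Topology

theorem rem_zero (B R : ℤ[X]) (hdeg : R.degree < B.degree)
    (h : ∀ p : ℕ, p.Prime → B.eval (p : ℤ) ≠ 0 ∧ B.eval (p : ℤ) ∣ R.eval (p : ℤ)) : R = 0 := by
  have hinj : Function.Injective (Int.castRingHom ℝ) := Int.cast_injective
  have h1 : Tendsto (fun x : ℝ => eval x (R.map (Int.castRingHom ℝ)) /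
      eval x (B.map (Int.castRingHom ℝ))) atTop (𝓝 0) := by
    apply Polynomial.div_tendsto_atTop_zero_of_degree_lt
    rw [degree_map_eq_of_injective hinj, degree_map_eq_of_injective hinj]
    exact hdeg
  have h2 := h1.comp (tendsto_natCast_atTop_atTop (R := ℝ))
  have h3 : ∀ᶠ n : ℕ in atTop, |eval (n : ℝ) (R.map (Int.castRingHom ℝ)) /
      eval (n : ℝ) (B.map (Int.castRingHom ℝ))| < 1 := by
    have := (tendsto_order.1 h2.abs).2 1 (by simp)
    exact this
  obtain ⟨n₀, hn₀⟩ := eventually_atTop.1 h3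
  apply Polynomial.eq_zero_of_infinite_isRoot
  have hinf : {p : ℕ | p.Prime ∧ n₀ ≤ p}.Infinite := by
    rw [Set.infinite_iff_exists_gt]
    intro a
    obtain ⟨p, hp1, hp2⟩ := Nat.exists_infinite_primes (max n₀ (a + 1))
    exact ⟨p, ⟨hp2, (le_max_left _ _).trans hp1⟩, (le_max_right _ _).trans hp1⟩
  have himg := hinf.image (f := fun p : ℕ => (p : ℤ)) (fun a _ b _ hab => Nat.cast_injective (R := ℤ) hab)
  refine himg.mono ?_
  rintro _ ⟨p, ⟨hp, hpn⟩, rfl⟩
  obtain ⟨hB, k, hk⟩ := h p hp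
  have h4 := hn₀ p hpn
  have e1 : ∀ P : ℤ[X], eval (p : ℝ) (P.map (Int.castRingHom ℝ)) = ((P.eval (p : ℤ) : ℤ) : ℝ) := by
    intro P
    rw [eval_map, ← Int.cast_natCast, eval₂_at_intCast]
    simp
  rw [e1, e1, hk] at h4
  have hB' : ((B.eval (p : ℤ) : ℤ) : ℝ) ≠ 0 := by exact_mod_cast hB
  rw [Int.cast_mul, mul_div_cancel_left₀ _ hB'] at h4
  have h5 : |k| < 1 := by exact_mod_cast h4
  have h6 : k = 0 := Int.abs_lt_one_iff.1 h5
  show R.eval (p : ℤ) = 0
  rw [hk, h6, mul_zero]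

theorem main : S_DIV := by
  intro B F hB N hB0 hN
  have hR : F %ₘ B = 0 := by
    apply rem_zero B _ (degree_modByMonic_lt F hB)
    intro p hp
    have : Fact p.Prime := ⟨hp⟩
    have h1 := hB0 (ZMod p)
    have h2 := hN (ZMod p)
    rw [Nat.card_zmod] at h1 h2
    refine ⟨h1, N (ZMod p) - (F /ₘ B).eval (p : ℤ), ?_⟩
    have h3 := congrArg (eval (p : ℤ)) (modByMonic_add_div F B)
    rw [eval_add, eval_mul] at h3
    linear_combination h3 - h2
  refine ⟨F /ₘ B, fun K _ _ => ?_⟩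
  have h3 := congrArg (eval (Nat.card K : ℤ)) (modByMonic_add_div F B)
  rw [hR, zero_add, eval_mul, ← hN K] at h3
  exact (mul_left_cancel₀ (hB0 K) h3).symm

end Pool.Agent.Helper90.RK2.DIV
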