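import Pool.Agent.Helper90.RK2.Stm

/-!
# Matrices of rank `d` and pairs of spanning families modulo `GL_d`: module FAC
-/

set_option autoImplicit false

namespace Pool.Agent.Helper90.RK2.FAC

open Matrix

variable {A C : Type} [Fintype A] [Fintype C] {d : ℕ} {K : Type} [Field K]

/-- the rows of `X` span `K^d` iff `X` has a left inverse -/
lemma span_iff (X : Matrix A (Fin d) K) :
    Submodule.span K (Set.range fun a => X a) = ⊤ ↔ ∃ P : Matrix (Fin d) A K, P * X = 1 := by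
  classical
  constructor
  · intro h
    have h1 : ∀ i : Fin d, ∃ c : A → K, ∑ a, c a • X a = Pi.single i 1 := by
      intro i
      have h2 : (Pi.single i 1 : Fin d → K) ∈ Submodule.span K (Set.range fun a => X a) := by
        rw [h]
        exact Submodule.mem_top
      exact (Submodule.mem_span_range_iff_exists_fun K).1 h2
    choose P hP using h1
    refine ⟨Matrix.of P, ?_⟩
    ext i j
    have h2 := congrFun (hP i) j
    rw [Matrix.mul_apply]
    rw [Finset.sum_apply] at h2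
    simp only [Pi.smul_apply, smul_eq_mul] at h2
    simp only [Matrix.of_apply]
    rw [h2, Matrix.one_apply, Pi.single_apply]
    by_cases hij : i = j
    · rw [if_pos hij, if_pos hij.symm]
    · rw [if_neg hij, if_neg (fun h => hij h.symm)]
  · rintro ⟨P, hP⟩
    rw [eq_top_iff]
    rintro v -
    have h1 : v = ∑ a, (∑ i, v i * P i a) • X a := by
      funext j
      rw [Finset.sum_apply]
      simp only [Pi.smul_apply, smul_eq_mul, Finset.sum_mul]
      rw [Finset.sum_comm]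
      have h2 : ∀ i, ∑ a, v i * P i a * X a j = v i * (1 : Matrix (Fin d) (Fin d) K) i j := by
        intro i
        rw [← hP, Matrix.mul_apply, Finset.mul_sum]
        exact Finset.sum_congr rfl fun a _ => mul_assoc _ _ _
      rw [Finset.sum_congr rfl fun i _ => h2 i]
      simp [Matrix.one_apply]
    rw [h1]
    exact Submodule.sum_mem _ fun a _ =>
      Submodule.smul_mem _ _ (Submodule.subset_span ⟨a, rfl⟩)

lemma span_of_rank {X : Matrix A (Fin d) K} (h : X.rank = d) :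
    Submodule.span K (Set.range fun a => X a) = ⊤ := by
  apply Submodule.eq_top_of_finrank_eq
  rw [Module.finrank_fin_fun]
  have h1 := X.rank_eq_finrank_span_row
  rw [h] at h1
  exact h1.symm

/-- rank factorisation -/
lemma exists_fac {L : Matrix A C K} (h : L.rank = d) :
    ∃ (X : Matrix A (Fin d) K) (Y : Matrix C (Fin d) K), X * Yᵀ = L := by
  classical
  have h1 : Module.finrank K (LinearMap.range L.mulVecLin) = d := h
  let b : Module.Basis (Fin d) K (LinearMap.range L.mulVecLin) := Module.finBasisOfFinrankEq K _ h1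
  have hcol : ∀ c : C, (fun a => L a c) ∈ LinearMap.range L.mulVecLin := by
    intro c
    refine ⟨Pi.single c 1, ?_⟩
    rw [Matrix.mulVecLin_apply, Matrix.mulVec_single_one]
    rfl
  refine ⟨Matrix.of fun a i => (b i : A → K) a, Matrix.of fun c i => b.repr ⟨_, hcol c⟩ i, ?_⟩
  ext a c
  rw [Matrix.mul_apply]
  have h2 := b.sum_repr ⟨_, hcol c⟩
  have h3 := congrFun (congrArg Subtype.val h2) a
  rw [AddSubmonoidClass.coe_finsetSum, Finset.sum_apply] at h3
  refine Eq.trans (Finset.sum_congr rfl fun i _ => ?_) h3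
  rw [Matrix.transpose_apply, Matrix.of_apply, Matrix.of_apply]
  show (b i : A → K) a * b.repr ⟨_, hcol c⟩ i = (b.repr ⟨_, hcol c⟩ i) * (b i : A → K) a
  rw [mul_comm]

lemma rank_le (X : Matrix A (Fin d) K) : X.rank ≤ d := by
  have h := X.rank_le_card_width
  rwa [Fintype.card_fin] at h

lemma exists_full {L : Matrix A C K} (h : L.rank = d) :
    ∃ (X : Matrix A (Fin d) K) (Y : Matrix C (Fin d) K) (P : Matrix (Fin d) A K)
      (R : Matrix (Fin d) C K), X * Yᵀ = L ∧ P * X = 1 ∧ R * Y = 1 := by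
  obtain ⟨X, Y, hXY⟩ := exists_fac h
  have h1 : X.rank = d := by
    apply le_antisymm (rank_le X)
    calc d = L.rank := h.symm
      _ = (X * Yᵀ).rank := by rw [hXY]
      _ ≤ X.rank := Matrix.rank_mul_le_left _ _
  have h2 : Y.rank = d := by
    apply le_antisymm (rank_le Y)
    calc d = L.rank := h.symm
      _ = (X * Yᵀ).rank := by rw [hXY]
      _ ≤ Yᵀ.rank := Matrix.rank_mul_le_right _ _
      _ = Y.rank := Matrix.rank_transpose Y
  obtain ⟨P, hP⟩ := (span_iff X).1 (span_of_rank h1)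
  obtain ⟨R, hR⟩ := (span_iff Y).1 (span_of_rank h2)
  exact ⟨X, Y, P, R, hXY, hP, hR⟩

lemma rank_mul {X : Matrix A (Fin d) K} {Y : Matrix C (Fin d) K} {P : Matrix (Fin d) A K}
    {R : Matrix (Fin d) C K} (hP : P * X = 1) (hR : R * Y = 1) : (X * Yᵀ).rank = d := by
  apply le_antisymm
  · exact (Matrix.rank_mul_le_left _ _).trans (rank_le X)
  · have h1 : P * (X * Yᵀ) * Rᵀ = 1 := by
      rw [← Matrix.mul_assoc, hP, Matrix.one_mul, ← Matrix.transpose_mul, hR, Matrix.transpose_one]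
    have h2 : (1 : Matrix (Fin d) (Fin d) K).rank = d := by simp
    calc d = (P * (X * Yᵀ) * Rᵀ).rank := by rw [h1, h2]
      _ ≤ (P * (X * Yᵀ)).rank := Matrix.rank_mul_le_left _ _
      _ ≤ (X * Yᵀ).rank := Matrix.rank_mul_le_right _ _

lemma surj_aux {X x : Matrix A (Fin d) K} {Y y : Matrix C (Fin d) K} {P : Matrix (Fin d) A K}
    {R : Matrix (Fin d) C K} (hP : P * X = 1) (hR : R * Y = 1) (h : X * Yᵀ = x * yᵀ) :
    ∃ g : GL (Fin d) K, X * (g : Matrix (Fin d) (Fin d) K) = x ∧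
      Y * ((g⁻¹ : GL (Fin d) K) : Matrix (Fin d) (Fin d) K)ᵀ = y := by
  have hRt : Yᵀ * Rᵀ = 1 := by
    rw [← Matrix.transpose_mul, hR, Matrix.transpose_one]
  have hgh : (P * x) * (yᵀ * Rᵀ) = 1 := by
    rw [Matrix.mul_assoc, ← Matrix.mul_assoc x, ← h, Matrix.mul_assoc X, hRt, Matrix.mul_one, hP]
  have hhg : (yᵀ * Rᵀ) * (P * x) = 1 := mul_eq_one_comm.1 hgh
  refine ⟨⟨P * x, yᵀ * Rᵀ, hgh, hhg⟩, ?_, ?_⟩
  · show X * (P * x) = x
    have h1 : x * (yᵀ * Rᵀ) = X := by
      rw [← Matrix.mul_assoc, ← h, Matrix.mul_assoc, hRt, Matrix.mul_one]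
    calc X * (P * x) = (x * (yᵀ * Rᵀ)) * (P * x) := by rw [h1]
      _ = x := by rw [Matrix.mul_assoc, hhg, Matrix.mul_one]
  · show Y * (yᵀ * Rᵀ)ᵀ = y
    have h1 : (P * x) * yᵀ = Yᵀ := by
      rw [Matrix.mul_assoc, ← h, ← Matrix.mul_assoc, hP, Matrix.one_mul]
    have h2 : (yᵀ * Rᵀ) * Yᵀ = yᵀ := by
      rw [← h1, ← Matrix.mul_assoc, hhg, Matrix.one_mul]
    have h3 := congrArg Matrix.transpose h2
    rw [Matrix.transpose_mul, Matrix.transpose_transpose, Matrix.transpose_transpose] at h3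
    exact h3

/-- the matrices of rank `d` with zeros at `Z` -/
abbrev LL (A C : Type) [Fintype A] [Fintype C] (d : ℕ) (Z : A → C → Prop) (K : Type) [Field K] :
    Type := {L : Matrix A C K // L.rank = d ∧ ∀ a c, Z a c → L a c = 0}

/-- the pairs of matrices of rank `d` -/
abbrev PP (A C : Type) [Fintype A] [Fintype C] (d : ℕ) (Z : A → C → Prop) (K : Type) [Field K] :
    Type := {p : Matrix A (Fin d) K × Matrix C (Fin d) K //
      (∃ P : Matrix (Fin d) A K, P * p.1 = 1) ∧ (∃ R : Matrix (Fin d) C K, R * p.2 = 1) ∧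
        ∀ a c, Z a c → (p.1 * p.2ᵀ) a c = 0}

lemma card_PP (Z : A → C → Prop) : fullN d Z K = Nat.card (PP A C d Z K) := by
  unfold fullN
  refine Nat.card_congr (Equiv.subtypeEquiv
    (Equiv.prodCongr (Matrix.of : (A → Fin d → K) ≃ Matrix A (Fin d) K)
      (Matrix.of : (C → Fin d → K) ≃ Matrix C (Fin d) K)) ?_)
  rintro ⟨x, y⟩
  refine and_congr (span_iff (Matrix.of x)) (and_congr (span_iff (Matrix.of y)) ?_)
  refine forall_congr' fun a => forall_congr' fun c => ?_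
  rfl

/-- the action of `GL_d` -/
noncomputable def act (Z : A → C → Prop) (X : LL A C d Z K → Matrix A (Fin d) K)
    (Y : LL A C d Z K → Matrix C (Fin d) K) (P : LL A C d Z K → Matrix (Fin d) A K)
    (R : LL A C d Z K → Matrix (Fin d) C K) (hXY : ∀ L, X L * (Y L)ᵀ = L.1)
    (hP : ∀ L, P L * X L = 1) (hR : ∀ L, R L * Y L = 1) (q : LL A C d Z K × GL (Fin d) K) :
    PP A C d Z K :=
  ⟨(X q.1 * (q.2 : Matrix (Fin d) (Fin d) K),
    Y q.1 * ((q.2⁻¹ : GL (Fin d) K) : Matrix (Fin d) (Fin d) K)ᵀ), by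
    obtain ⟨L, g⟩ := q
    have h1 : ((g⁻¹ : GL (Fin d) K) : Matrix (Fin d) (Fin d) K) * (g : Matrix (Fin d) (Fin d) K) = 1 := by
      rw [← Units.val_mul, inv_mul_cancel, Units.val_one]
    have h1' : (g : Matrix (Fin d) (Fin d) K) * ((g⁻¹ : GL (Fin d) K) : Matrix (Fin d) (Fin d) K) = 1 := by
      rw [← Units.val_mul, mul_inv_cancel, Units.val_one]
    refine ⟨⟨((g⁻¹ : GL (Fin d) K) : Matrix (Fin d) (Fin d) K) * P L, ?_⟩,
      ⟨(g : Matrix (Fin d) (Fin d) K)ᵀ * R L, ?_⟩, ?_⟩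
    · show ((g⁻¹ : GL (Fin d) K) : Matrix (Fin d) (Fin d) K) * P L * (X L * (g : Matrix (Fin d) (Fin d) K)) = 1
      rw [Matrix.mul_assoc, ← Matrix.mul_assoc (P L), hP, Matrix.one_mul, h1]
    · show (g : Matrix (Fin d) (Fin d) K)ᵀ * R L *
        (Y L * ((g⁻¹ : GL (Fin d) K) : Matrix (Fin d) (Fin d) K)ᵀ) = 1
      rw [Matrix.mul_assoc, ← Matrix.mul_assoc (R L), hR, Matrix.one_mul, ← Matrix.transpose_mul, h1,
        Matrix.transpose_one]
    · intro a c hac
      show ((X L * (g : Matrix (Fin d) (Fin d) K)) *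
        (Y L * ((g⁻¹ : GL (Fin d) K) : Matrix (Fin d) (Fin d) K)ᵀ)ᵀ) a c = 0
      rw [Matrix.transpose_mul, Matrix.transpose_transpose, Matrix.mul_assoc,
        ← Matrix.mul_assoc (g : Matrix (Fin d) (Fin d) K), h1', Matrix.one_mul, hXY]
      exact L.2.2 a c hac⟩

lemma act_prod (Z : A → C → Prop) (X : LL A C d Z K → Matrix A (Fin d) K)
    (Y : LL A C d Z K → Matrix C (Fin d) K) (P : LL A C d Z K → Matrix (Fin d) A K)
    (R : LL A C d Z K → Matrix (Fin d) C K) (hXY : ∀ L, X L * (Y L)ᵀ = L.1)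
    (hP : ∀ L, P L * X L = 1) (hR : ∀ L, R L * Y L = 1) (q : LL A C d Z K × GL (Fin d) K) :
    (act Z X Y P R hXY hP hR q).1.1 * ((act Z X Y P R hXY hP hR q).1.2)ᵀ = q.1.1 := by
  obtain ⟨L, g⟩ := q
  have h1' : (g : Matrix (Fin d) (Fin d) K) * ((g⁻¹ : GL (Fin d) K) : Matrix (Fin d) (Fin d) K) = 1 := by
    rw [← Units.val_mul, mul_inv_cancel, Units.val_one]
  show (X L * (g : Matrix (Fin d) (Fin d) K)) *
        (Y L * ((g⁻¹ : GL (Fin d) K) : Matrix (Fin d) (Fin d) K)ᵀ)ᵀ = L.1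
  rw [Matrix.transpose_mul, Matrix.transpose_transpose, Matrix.mul_assoc,
    ← Matrix.mul_assoc (g : Matrix (Fin d) (Fin d) K), h1', Matrix.one_mul, hXY]

lemma act_bij (Z : A → C → Prop) (X : LL A C d Z K → Matrix A (Fin d) K)
    (Y : LL A C d Z K → Matrix C (Fin d) K) (P : LL A C d Z K → Matrix (Fin d) A K)
    (R : LL A C d Z K → Matrix (Fin d) C K) (hXY : ∀ L, X L * (Y L)ᵀ = L.1)
    (hP : ∀ L, P L * X L = 1) (hR : ∀ L, R L * Y L = 1) :
    Function.Bijective (act Z X Y P R hXY hP hR) := by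
  constructor
  · intro q q' h
    have h3 : q.1 = q'.1 := by
      apply Subtype.ext
      rw [← act_prod Z X Y P R hXY hP hR q, ← act_prod Z X Y P R hXY hP hR q', h]
    obtain ⟨L, g⟩ := q
    obtain ⟨L', g'⟩ := q'
    simp only at h3
    subst h3
    have h1 : X L * (g : Matrix (Fin d) (Fin d) K) = X L * (g' : Matrix (Fin d) (Fin d) K) :=
      congrArg (fun p : PP A C d Z K => p.1.1) h
    have h4 : (g : Matrix (Fin d) (Fin d) K) = g' := by
      have h5 := congrArg (fun M => P L * M) h1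
      simp only [← Matrix.mul_assoc, hP, Matrix.one_mul] at h5
      exact h5
    rw [Units.ext h4]
  · rintro ⟨⟨x, y⟩, ⟨P', hP'⟩, ⟨R', hR'⟩, hz⟩
    obtain ⟨g, hg1, hg2⟩ := surj_aux (hP ⟨x * yᵀ, rank_mul hP' hR', hz⟩)
      (hR ⟨x * yᵀ, rank_mul hP' hR', hz⟩) (hXY ⟨x * yᵀ, rank_mul hP' hR', hz⟩)
    exact ⟨(⟨x * yᵀ, rank_mul hP' hR', hz⟩, g), Subtype.ext (Prod.ext hg1 hg2)⟩

theorem main : S_FAC := by
  intro A C _ _ d Z K _ _
  classical
  have : Fintype K := Fintype.ofFinite K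
  have hex := fun L : LL A C d Z K => exists_full (d := d) L.2.1
  choose X Y P R hXY hP hR using hex
  have hcard : Nat.card (PP A C d Z K) = Nat.card (LL A C d Z K) * Nat.card (GL (Fin d) K) := by
    rw [← Nat.card_prod]
    exact (Nat.card_eq_of_bijective _ (act_bij Z X Y P R hXY hP hR)).symm
  have hGL : (Nat.card (GL (Fin d) K) : ℤ) =
      ∏ i ∈ Finset.range d, ((Nat.card K : ℤ) ^ d - (Nat.card K : ℤ) ^ i) := by
    rw [Matrix.card_GL_field, Nat.cast_prod, Finset.prod_range, Nat.card_eq_fintype_card]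
    refine Finset.prod_congr rfl fun i _ => ?_
    rw [Nat.cast_sub (Nat.pow_le_pow_right Fintype.card_pos i.isLt.le), Nat.cast_pow, Nat.cast_pow]
  rw [card_PP, hcard, Nat.cast_mul, hGL]

end Pool.Agent.Helper90.RK2.FAC
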