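import Pool.Agent.Helper90.RK2.TWO
import Pool.Agent.Helper90.PZ.Main

/-!
# Matrices of rank at most two with prescribed zeros: their number is a polynomial
-/

set_option autoImplicit false

namespace Pool.Agent.Helper90.RK2

open Matrix Pool.Agent.Helper90.PZ

theorem rank_poly (hF : S_FAC) (hD : S_DIV) (h1 : S_ONE) {r : ℕ} (hr : r ≤ 2) (m n : ℕ)
    (S : Finset (Fin m × Fin n)) : ∃ F : Polynomial ℤ, ∀ (K : Type) [Field K] [Finite K],
      (rankZeros r S K : ℤ) = F.eval (Nat.card K : ℤ) := by
  have hk : ∀ (K : Type) [Field K], rankZeros r S K =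
      Nat.card {L : Matrix (Fin m) (Fin n) K // L.rank = r ∧ ∀ a c, (a, c) ∈ S → L a c = 0} := by
    intro K _
    unfold rankZeros
    refine Nat.card_congr (Equiv.subtypeEquivRight fun A => ?_)
    exact ⟨fun h => ⟨h.1, fun a c hac => h.2 _ hac⟩, fun h => ⟨h.1, fun p hp => h.2 p.1 p.2 hp⟩⟩
  have hq : ∀ (K : Type) [Field K] [Finite K], (2 : ℤ) ≤ Nat.card K := by
    intro K _ _
    have : 1 < Nat.card K := Finite.one_lt_card
    exact_mod_cast this
  -- the case of a positive rank, from the polynomial for the spanning pairs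
  have key : ∀ B : Polynomial ℤ, B.Monic → (∀ q : ℤ, B.eval q = ∏ i ∈ Finset.range r, (q ^ r - q ^ i)) →
      (∀ q : ℤ, 2 ≤ q → B.eval q ≠ 0) →
      (∃ F : Polynomial ℤ, ∀ (K : Type) [Field K] [Finite K],
        (fullN r (fun a c => (a, c) ∈ S) K : ℤ) = F.eval (Nat.card K : ℤ)) →
      ∃ F : Polynomial ℤ, ∀ (K : Type) [Field K] [Finite K],
        (rankZeros r S K : ℤ) = F.eval (Nat.card K : ℤ) := by
    intro B hB hev hne ⟨F, hFF⟩
    refine hD B F hB (fun K _ => (rankZeros r S K : ℤ)) (fun K _ _ => hne _ (hq K)) fun K _ _ => ?_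
    have h := hF (Fin m) (Fin n) r (fun a c => (a, c) ∈ S) K
    rw [hFF K] at h
    rw [h, hev]
    show _ * (rankZeros r S K : ℤ) = _
    rw [hk K, mul_comm]
  interval_cases r
  · refine ⟨1, fun K _ _ => ?_⟩
    have h := hF (Fin m) (Fin n) 0 (fun a c => (a, c) ∈ S) K
    rw [Finset.range_zero, Finset.prod_empty, mul_one] at h
    rw [hk K, ← h, Polynomial.eval_one]
    have : fullN 0 (fun (a : Fin m) (c : Fin n) => (a, c) ∈ S) K = 1 := by
      unfold fullN
      rw [Nat.card_eq_one_iff_unique]
      refine ⟨⟨fun a b => Subsingleton.elim a b⟩, ⟨⟨(fun _ => 0, fun _ => 0), ?_, ?_, ?_⟩⟩⟩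
      · exact Subsingleton.elim _ _
      · exact Subsingleton.elim _ _
      · intro a c _
        simp
    rw [this]
    rfl
  · refine key (Polynomial.X - 1) (by
      have := Polynomial.monic_X_sub_C (1 : ℤ)
      rwa [Polynomial.C_1] at this) (fun q => by simp) (fun q hq => ?_) (h1 _ _ _)
    rw [Polynomial.eval_sub, Polynomial.eval_X, Polynomial.eval_one]
    intro h
    linarith
  · refine key ((Polynomial.X ^ 2 - 1) * (Polynomial.X ^ 2 - Polynomial.X)) ?_ (fun q => ?_)
      (fun q hq => ?_) (TWO.main _ _ _)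
    · apply Polynomial.Monic.mul
      · monicity!
      · monicity!
    · simp [Finset.prod_range_succ]
    · simp only [Polynomial.eval_mul, Polynomial.eval_sub, Polynomial.eval_pow, Polynomial.eval_X,
        Polynomial.eval_one]
      apply mul_ne_zero
      · intro h
        nlinarith
      · intro h
        nlinarith

end Pool.Agent.Helper90.RK2
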