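import Pool.Agent.Helper90.RK2.Stm
import Pool.Agent.Helper90.PH.POLY

/-!
# The case `d = 1` (helper99)
-/

set_option autoImplicit false

namespace Pool.Agent.Helper90.RK2.ONE

open Finset

theorem span_iff {A K : Type} [Field K] (x : A → Fin 1 → K) :
    Submodule.span K (Set.range x) = ⊤ ↔ {a | x a 0 ≠ 0}.Nonempty := by
  constructor
  · intro h
    by_contra hne
    have h0 : ∀ a, x a 0 = 0 := by
      intro a
      by_contra ha
      exact hne ⟨a, ha⟩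
    have h1 : Submodule.span K (Set.range x) ≤ ⊥ := by
      rw [Submodule.span_le]
      rintro _ ⟨a, rfl⟩
      have h2 : x a = 0 := by
        funext i
        rw [Subsingleton.elim i 0]
        exact h0 a
      rw [h2]
      exact Submodule.zero_mem _
    rw [h] at h1
    have h3 : (fun _ => 1 : Fin 1 → K) ∈ (⊥ : Submodule K (Fin 1 → K)) := h1 Submodule.mem_top
    rw [Submodule.mem_bot] at h3
    exact one_ne_zero (congrFun h3 0)
  · rintro ⟨a, ha⟩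
    have ha' : x a 0 ≠ 0 := ha
    rw [eq_top_iff]
    intro v _
    have h1 : v = (v 0 / x a 0) • x a := by
      funext i
      rw [Subsingleton.elim i 0, Pi.smul_apply, smul_eq_mul, div_mul_cancel₀ _ ha']
    rw [h1]
    exact Submodule.smul_mem _ _ (Submodule.subset_span ⟨a, rfl⟩)

theorem main : S_ONE := by
  intro A C _ _ Z
  classical
  obtain ⟨Fn, hF1, hF0⟩ : ∃ Fn : Set A → Set C → ℤ,
      (∀ S T, (S.Nonempty ∧ T.Nonempty ∧ ∀ a c, Z a c → a ∈ S → c ∉ T) → Fn S T = 1) ∧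
      ∀ S T, ¬ (S.Nonempty ∧ T.Nonempty ∧ ∀ a c, Z a c → a ∈ S → c ∉ T) → Fn S T = 0 :=
    ⟨fun S T => if S.Nonempty ∧ T.Nonempty ∧ ∀ a c, Z a c → a ∈ S → c ∉ T then 1 else 0,
      fun S T h => if_pos h, fun S T h => if_neg h⟩
  refine ⟨∑ S : Set A, (Polynomial.X - 1) ^ S.ncard *
    ∑ T : Set C, (Polynomial.X - 1) ^ T.ncard * Polynomial.C (Fn S T), ?_⟩
  intro K _ _
  have := Fintype.ofFinite K
  have e : {p : (A → Fin 1 → K) × (C → Fin 1 → K) //
      Submodule.span K (Set.range p.1) = ⊤ ∧ Submodule.span K (Set.range p.2) = ⊤ ∧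
      ∀ a c, Z a c → ∑ i, p.1 a i * p.2 c i = 0} ≃
      {p : (A → K) × (C → K) // {a | p.1 a ≠ 0}.Nonempty ∧ {c | p.2 c ≠ 0}.Nonempty ∧
        ∀ a c, Z a c → a ∈ {a | p.1 a ≠ 0} → c ∉ {c | p.2 c ≠ 0}} := by
    refine Equiv.subtypeEquiv (Equiv.prodCongr (Equiv.arrowCongr (Equiv.refl A) (Equiv.funUnique (Fin 1) K))
      (Equiv.arrowCongr (Equiv.refl C) (Equiv.funUnique (Fin 1) K))) fun p => ?_
    rw [span_iff, span_iff]
    refine and_congr Iff.rfl (and_congr Iff.rfl (forall₂_congr fun a c => imp_congr_right fun _ => ?_))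
    rw [Fin.sum_univ_one]
    show p.1 a 0 * p.2 c 0 = 0 ↔ (p.1 a 0 ≠ 0 → ¬ (p.2 c 0 ≠ 0))
    rw [mul_eq_zero]
    tauto
  have hcard : (fullN 1 Z K : ℤ) = ∑ v : A → K, ∑ w : C → K, Fn {a | v a ≠ 0} {c | w c ≠ 0} := by
    unfold fullN
    rw [Nat.card_congr e, Nat.card_eq_fintype_card, Fintype.card_subtype, Finset.card_filter, ← Fintype.sum_prod_type',
      Nat.cast_sum]
    refine Finset.sum_congr rfl fun x _ => ?_
    by_cases h : {a | x.1 a ≠ 0}.Nonempty ∧ {c | x.2 c ≠ 0}.Nonempty ∧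
        ∀ a c, Z a c → a ∈ {a | x.1 a ≠ 0} → c ∉ {c | x.2 c ≠ 0}
    · rw [if_pos h, hF1 _ _ h, Nat.cast_one]
    · rw [if_neg h, hF0 _ _ h, Nat.cast_zero]
  rw [hcard]
  have h1 : ∀ v : A → K, (∑ w : C → K, Fn {a | v a ≠ 0} {c | w c ≠ 0}) =
      ∑ T : Set C, ((Nat.card K : ℤ) - 1) ^ T.ncard * Fn {a | v a ≠ 0} T :=
    fun v => PH.POLY.card_sum (fun T => Fn {a | v a ≠ 0} T)
  rw [Finset.sum_congr rfl fun v _ => h1 v]
  rw [PH.POLY.card_sum (K := K) (fun S : Set A => ∑ T : Set C, ((Nat.card K : ℤ) - 1) ^ T.ncard * Fn S T)]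
  simp [Polynomial.eval_finsetSum]

end Pool.Agent.Helper90.RK2.ONE
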