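import Mathlib

/-!
# Matrices of rank one and two with prescribed zeros: statements (helper90, MP_039d94_nt)
-/

set_option autoImplicit false

namespace Pool.Agent.Helper90.RK2

/-- The number of the pairs of spanning families `x : A → K^d`, `y : C → K^d` with `x a · y c = 0` for all
`(a, c)` in `Z`. -/
noncomputable def fullN {A C : Type} (d : ℕ) (Z : A → C → Prop) (K : Type) [Field K] : ℕ :=
  Nat.card {p : (A → Fin d → K) × (C → Fin d → K) //
    Submodule.span K (Set.range p.1) = ⊤ ∧ Submodule.span K (Set.range p.2) = ⊤ ∧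
      ∀ a c, Z a c → ∑ i, p.1 a i * p.2 c i = 0}

/-- FAC: every matrix `L` of rank `d` is a product `X * Yᵀ` with `X : A × d`, `Y : C × d` of rank `d` in
exactly `#GL_d(K)` ways. Proof: `X` as an injective linear map `K^d → K^A` with range the column space of `L`
(`card_inj` in `Pool.Agent.Helper90.PZ.Count`, on origin/main, counts the injective maps `K^d → range L`);
`Y` is then determined (its columns are the coordinates of the columns of `L`); `X`, `Y` have rank `d`
iff their rows span `K^d`. -/
def S_FAC : Prop :=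
  ∀ (A C : Type) [Fintype A] [Fintype C] (d : ℕ) (Z : A → C → Prop) (K : Type) [Field K] [Finite K],
    (fullN d Z K : ℤ) =
      (Nat.card {L : Matrix A C K // L.rank = d ∧ ∀ a c, Z a c → L a c = 0} : ℤ) *
        ∏ i ∈ Finset.range d, ((Nat.card K : ℤ) ^ d - (Nat.card K : ℤ) ^ i)

/-- DIV: an integral valued quotient of polynomials is a polynomial. Proof: `F = B * Q + R`,
`degree R < degree B` (`modByMonic`); `R(p) / B(p) = N(ZMod p) - Q(p)` is an integer for all primes `p` and tends
to `0` (`Polynomial.div_tendsto_zero_of_degree_lt` over `ℝ`), so `R(p) = 0` for all large primes `p`, so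
`R = 0`. -/
def S_DIV : Prop :=
  ∀ (B F : Polynomial ℤ), B.Monic → ∀ N : (K : Type) → [Field K] → ℤ,
    (∀ (K : Type) [Field K] [Finite K], B.eval (Nat.card K : ℤ) ≠ 0) →
    (∀ (K : Type) [Field K] [Finite K], B.eval (Nat.card K : ℤ) * N K = F.eval (Nat.card K : ℤ)) →
    ∃ G : Polynomial ℤ, ∀ (K : Type) [Field K] [Finite K], N K = G.eval (Nat.card K : ℤ)

/-- ONE: the case `d = 1`. Proof: sum over the supports `S ⊆ A`, `T ⊆ C` of the two families (functions to
`K`): `x` spans iff `S` is not empty; the condition is that no pair `(a, c)` in `S × T` is in `Z`; there are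
`(q - 1) ^ (#S + #T)` pairs with the supports `S`, `T` (compare `Pool/Agent/Helper90/PH/POLY.lean`). -/
def S_ONE : Prop :=
  ∀ (A C : Type) [Fintype A] [Fintype C] (Z : A → C → Prop),
    ∃ F : Polynomial ℤ, ∀ (K : Type) [Field K] [Finite K], (fullN 1 Z K : ℤ) = F.eval (Nat.card K : ℤ)

/-- TWO (helper90) -/
def S_TWO : Prop :=
  ∀ (A C : Type) [Fintype A] [Fintype C] (Z : A → C → Prop),
    ∃ F : Polynomial ℤ, ∀ (K : Type) [Field K] [Finite K], (fullN 2 Z K : ℤ) = F.eval (Nat.card K : ℤ)

end Pool.Agent.Helper90.RK2
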