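import Pool.Agent.Helper90.RK2.Stm

/-!
# Pairs of spanning families of vectors in the plane with prescribed orthogonalities
-/

set_option autoImplicit false

namespace Pool.Agent.Helper90.RK2.TWO

/-! ### colourings -/

theorem col (V : Type) [Finite V] (r : V → V → Prop) : ∃ n : ℕ, ∀ (T : Type) [Finite T],
    Nat.card {c : V → T // ∀ u v, r u v → c u = c v} = Nat.card T ^ n := by
  refine ⟨Nat.card (Quot r), fun T _ => ?_⟩
  haveI : Finite (Quot r) := Finite.of_surjective (Quot.mk r) Quot.mk_surjective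
  rw [← Nat.card_fun]
  refine Nat.card_congr ⟨fun c => Quot.lift c.1 c.2, fun g => ⟨fun v => g (Quot.mk r v), fun u v h =>
    congrArg g (Quot.sound h)⟩, fun c => rfl, fun g => ?_⟩
  funext x
  obtain ⟨v, rfl⟩ := Quot.exists_rep x
  rfl

theorem incl (X : Type) [Finite X] (P Q R : X → Prop) :
    (Nat.card {x // P x ∧ ¬ Q x ∧ ¬ R x} : ℤ) = (Nat.card {x // P x} : ℤ) - (Nat.card {x // P x ∧ Q x} : ℤ) -
      (Nat.card {x // P x ∧ R x} : ℤ) + (Nat.card {x // P x ∧ Q x ∧ R x} : ℤ) := by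
  classical
  haveI := Fintype.ofFinite X
  have h : ∀ p : X → Prop, (Nat.card {x // p x} : ℤ) = ∑ x, if p x then (1 : ℤ) else 0 := by
    intro p
    rw [Nat.card_eq_fintype_card, Fintype.card_subtype, Finset.sum_boole]
  rw [h, h, h, h, h, ← Finset.sum_sub_distrib, ← Finset.sum_sub_distrib, ← Finset.sum_add_distrib]
  refine Finset.sum_congr rfl fun x _ => ?_
  by_cases h1 : P x <;> by_cases h2 : Q x <;> by_cases h3 : R x <;> simp [h1, h2, h3]

/-- colourings constant along `r`, not constant along `r₁` and not constant along `r₂` -/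
theorem col3 (V : Type) [Finite V] (r r₁ r₂ : V → V → Prop) : ∃ F : Polynomial ℤ, ∀ (T : Type) [Finite T],
    (Nat.card {c : V → T // (∀ u v, r u v → c u = c v) ∧ ¬ (∀ u v, r₁ u v → c u = c v) ∧
      ¬ ∀ u v, r₂ u v → c u = c v} : ℤ) = F.eval (Nat.card T : ℤ) := by
  obtain ⟨n0, h0⟩ := col V r
  obtain ⟨n1, h1⟩ := col V (fun u v => r u v ∨ r₁ u v)
  obtain ⟨n2, h2⟩ := col V (fun u v => r u v ∨ r₂ u v)
  obtain ⟨n3, h3⟩ := col V (fun u v => r u v ∨ r₁ u v ∨ r₂ u v)
  refine ⟨.X ^ n0 - .X ^ n1 - .X ^ n2 + .X ^ n3, fun T _ => ?_⟩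
  rw [incl]
  simp only [Polynomial.eval_add, Polynomial.eval_sub, Polynomial.eval_pow, Polynomial.eval_X]
  have e1 : Nat.card {c : V → T // (∀ u v, r u v → c u = c v) ∧ ∀ u v, r₁ u v → c u = c v} =
      Nat.card T ^ n1 := by
    rw [← h1 T]
    refine Nat.card_congr (Equiv.subtypeEquivRight fun c => ?_)
    exact ⟨fun h u v hr => hr.elim (h.1 u v) (h.2 u v), fun h => ⟨fun u v hr => h u v (Or.inl hr),
      fun u v hr => h u v (Or.inr hr)⟩⟩
  have e2 : Nat.card {c : V → T // (∀ u v, r u v → c u = c v) ∧ ∀ u v, r₂ u v → c u = c v} =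
      Nat.card T ^ n2 := by
    rw [← h2 T]
    refine Nat.card_congr (Equiv.subtypeEquivRight fun c => ?_)
    exact ⟨fun h u v hr => hr.elim (h.1 u v) (h.2 u v), fun h => ⟨fun u v hr => h u v (Or.inl hr),
      fun u v hr => h u v (Or.inr hr)⟩⟩
  have e3 : Nat.card {c : V → T // (∀ u v, r u v → c u = c v) ∧ (∀ u v, r₁ u v → c u = c v) ∧
      ∀ u v, r₂ u v → c u = c v} = Nat.card T ^ n3 := by
    rw [← h3 T]
    refine Nat.card_congr (Equiv.subtypeEquivRight fun c => ?_)
    exact ⟨fun h u v hr => hr.elim (h.1 u v) (fun hr => hr.elim (h.2.1 u v) (h.2.2 u v)),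
      fun h => ⟨fun u v hr => h u v (Or.inl hr), fun u v hr => h u v (Or.inr (Or.inl hr)),
        fun u v hr => h u v (Or.inr (Or.inr hr))⟩⟩
  rw [h0 T, e1, e2, e3]
  push_cast
  ring

/-! ### supports -/

/-- functions to `Option (T × U)`: the support, the colours and the scalars -/
theorem supp_sum (V T U : Type) [Fintype V] [Finite T] [Finite U] (Φ : (V → Option (T × U)) → Prop)
    (Ψ : (S : Set V) → (S → T) → Prop)
    (h : ∀ (S : Set V) (c : S → T) (s : S → U) (f : V → Option (T × U)),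
      (∀ v (hv : v ∈ S), f v = some (c ⟨v, hv⟩, s ⟨v, hv⟩)) → (∀ v, v ∉ S → f v = none) →
      (Φ f ↔ Ψ S c)) :
    Nat.card {f // Φ f} = ∑ᶠ S : Set V, Nat.card {c : S → T // Ψ S c} * Nat.card U ^ Nat.card S := by
  classical
  haveI : Finite {f // Φ f} := Subtype.finite
  let supp : {f // Φ f} → Set V := fun f => {v | f.1 v ≠ none}
  rw [← Nat.card_congr (Equiv.sigmaFiberEquiv supp), finsum_eq_sum_of_fintype, Nat.card_sigma]
  refine Finset.sum_congr rfl fun S _ => ?_
  haveI : Finite (S → U) := inferInstance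
  rw [← Nat.card_fun, ← Nat.card_prod]
  let f0 : (S → T) → (S → U) → V → Option (T × U) := fun c s v =>
    if hv : v ∈ S then some (c ⟨v, hv⟩, s ⟨v, hv⟩) else none
  have hf1 : ∀ c s v (hv : v ∈ S), f0 c s v = some (c ⟨v, hv⟩, s ⟨v, hv⟩) := fun c s v hv => dif_pos hv
  have hf2 : ∀ c s v, v ∉ S → f0 c s v = none := fun c s v hv => dif_neg hv
  symm
  refine Nat.card_congr (Equiv.ofBijective (fun p : {c : S → T // Ψ S c} × (S → U) =>
    (⟨⟨f0 p.1.1 p.2, (h S p.1.1 p.2 _ (hf1 _ _) (hf2 _ _)).2 p.1.2⟩, ?_⟩ : {x // supp x = S})) ⟨?_, ?_⟩)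
  · ext v
    show f0 p.1.1 p.2 v ≠ none ↔ v ∈ S
    constructor
    · intro h1
      by_contra hv
      exact h1 (hf2 _ _ v hv)
    · intro hv
      rw [hf1 _ _ v hv]
      exact Option.some_ne_none _
  · rintro ⟨⟨c, hc⟩, s⟩ ⟨⟨c', hc'⟩, s'⟩ hcc
    have h1 : f0 c s = f0 c' s' := congrArg (fun x => x.1.1) hcc
    have h2 : ∀ v : S, c v = c' v ∧ s v = s' v := by
      intro v
      have h3 := congrFun h1 v.1
      rw [hf1 _ _ v.1 v.2, hf1 _ _ v.1 v.2] at h3
      have h4 := Option.some.inj h3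
      exact ⟨congrArg Prod.fst h4, congrArg Prod.snd h4⟩
    have h3 : c = c' := funext fun v => (h2 v).1
    have h4 : s = s' := funext fun v => (h2 v).2
    subst h3
    subst h4
    rfl
  · rintro ⟨⟨f, hf⟩, hS⟩
    have h1 : ∀ v : S, ∃ p : T × U, f v.1 = some p := by
      intro v
      have h2 : v.1 ∈ supp ⟨f, hf⟩ := by rw [hS]; exact v.2
      exact Option.ne_none_iff_exists'.1 h2
    choose g hg using h1
    have h2 : ∀ v, v ∉ S → f v = none := by
      intro v hv
      by_contra h3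
      apply hv
      rw [← hS]
      exact h3
    have hΨ : Ψ S (fun v => (g v).1) := (h S _ (fun v => (g v).2) f (fun v hv => hg ⟨v, hv⟩) h2).1 hf
    refine ⟨⟨⟨fun v => (g v).1, hΨ⟩, fun v => (g v).2⟩, ?_⟩
    apply Subtype.ext
    apply Subtype.ext
    funext v
    show f0 _ _ v = f v
    by_cases hv : v ∈ S
    · rw [hf1 _ _ v hv]
      exact (hg ⟨v, hv⟩).symm
    · rw [hf2 _ _ v hv, h2 v hv]

/-! ### vectors in the plane -/

section
variable {K : Type} [Field K]

/-- the vectors of the plane: zero, or direction and scalar -/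
def ex : Option (Option K × Kˣ) → Fin 2 → K
  | none => ![0, 0]
  | some (some t, s) => ![(s : K), s * t]
  | some (none, s) => ![0, (s : K)]

/-- the orthogonal directions -/
def ey : Option (Option K × Kˣ) → Fin 2 → K
  | none => ![0, 0]
  | some (some t, s) => ![-(s * t), (s : K)]
  | some (none, s) => ![(s : K), 0]

theorem ex_bij : Function.Bijective (ex : Option (Option K × Kˣ) → Fin 2 → K) := by
  constructor
  · intro a b h
    have h0 := congrFun h 0
    have h1 := congrFun h 1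
    rcases a with _ | ⟨_ | t, s⟩ <;> rcases b with _ | ⟨_ | t', s'⟩ <;>
      simp only [ex, Matrix.cons_val_zero, Matrix.cons_val_one] at h0 h1
    · rfl
    · exact absurd h1.symm s'.ne_zero
    · exact absurd h0.symm s'.ne_zero
    · exact absurd h1 s.ne_zero
    · rw [Units.ext h1]
    · exact absurd h0.symm s'.ne_zero
    · exact absurd h0 s.ne_zero
    · exact absurd h0 s.ne_zero
    · have hs := Units.ext h0
      subst hs
      rw [mul_left_cancel₀ s.ne_zero h1]
  · intro v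
    by_cases h0 : v 0 = 0
    · by_cases h1 : v 1 = 0
      · refine ⟨none, ?_⟩
        funext i
        fin_cases i
        · exact h0.symm
        · exact h1.symm
      · refine ⟨some (none, Units.mk0 _ h1), ?_⟩
        funext i
        fin_cases i
        · exact h0.symm
        · rfl
    · refine ⟨some (some (v 1 / v 0), Units.mk0 _ h0), ?_⟩
      funext i
      fin_cases i
      · rfl
      · show v 0 * (v 1 / v 0) = v 1
        field_simp

theorem ey_bij : Function.Bijective (ey : Option (Option K × Kˣ) → Fin 2 → K) := by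
  constructor
  · intro a b h
    have h0 := congrFun h 0
    have h1 := congrFun h 1
    rcases a with _ | ⟨_ | t, s⟩ <;> rcases b with _ | ⟨_ | t', s'⟩ <;>
      simp only [ey, Matrix.cons_val_zero, Matrix.cons_val_one] at h0 h1
    · rfl
    · exact absurd h0.symm s'.ne_zero
    · exact absurd h1.symm s'.ne_zero
    · exact absurd h0 s.ne_zero
    · rw [Units.ext h0]
    · exact absurd h1.symm s'.ne_zero
    · exact absurd h1 s.ne_zero
    · exact absurd h1 s.ne_zero
    · have hs := Units.ext h1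
      subst hs
      rw [mul_left_cancel₀ s.ne_zero (neg_injective h0)]
  · intro v
    by_cases h1 : v 1 = 0
    · by_cases h0 : v 0 = 0
      · refine ⟨none, ?_⟩
        funext i
        fin_cases i
        · exact h0.symm
        · exact h1.symm
      · refine ⟨some (none, Units.mk0 _ h0), ?_⟩
        funext i
        fin_cases i
        · rfl
        · exact h1.symm
    · refine ⟨some (some (-(v 0 / v 1)), Units.mk0 _ h1), ?_⟩
      funext i
      fin_cases i
      · show -(v 1 * -(v 0 / v 1)) = v 0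
        field_simp
      · rfl

/-- different colours -/
def Dif {T U : Type} (a b : Option (T × U)) : Prop := ∃ p q, a = some p ∧ b = some q ∧ p.1 ≠ q.1

theorem det_ex (a b : Option (Option K × Kˣ)) :
    ex a 0 * ex b 1 - ex a 1 * ex b 0 ≠ 0 ↔ Dif a b := by
  unfold Dif
  rcases a with _ | ⟨_ | t, s⟩ <;> rcases b with _ | ⟨_ | t', s'⟩ <;>
    simp only [ex, Matrix.cons_val_zero, Matrix.cons_val_one]
  · simp
  · simp
  · simp
  · simp
  · simp
  · simp [s.ne_zero, s'.ne_zero]
  · simp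
  · simp [s.ne_zero, s'.ne_zero]
  · have e : (s : K) * (s' * t') - s * t * s' = s * s' * (t' - t) := by ring
    rw [e, mul_ne_zero_iff, sub_ne_zero]
    constructor
    · rintro ⟨-, h⟩
      exact ⟨_, _, rfl, rfl, fun h2 => h (Option.some.inj h2).symm⟩
    · rintro ⟨p, q, hp, hq, h⟩
      obtain rfl := Option.some.inj hp
      obtain rfl := Option.some.inj hq
      exact ⟨mul_ne_zero s.ne_zero s'.ne_zero, fun h2 => h (by rw [h2])⟩

theorem det_ey (a b : Option (Option K × Kˣ)) :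
    ey a 0 * ey b 1 - ey a 1 * ey b 0 ≠ 0 ↔ Dif a b := by
  unfold Dif
  rcases a with _ | ⟨_ | t, s⟩ <;> rcases b with _ | ⟨_ | t', s'⟩ <;>
    simp only [ey, Matrix.cons_val_zero, Matrix.cons_val_one]
  · simp
  · simp
  · simp
  · simp
  · simp
  · simp [s.ne_zero, s'.ne_zero]
  · simp
  · simp [s.ne_zero, s'.ne_zero]
  · have e : -((s : K) * t) * s' - s * -(s' * t') = s * s' * (t' - t) := by ring
    rw [e, mul_ne_zero_iff, sub_ne_zero]
    constructor
    · rintro ⟨-, h⟩
      exact ⟨_, _, rfl, rfl, fun h2 => h (Option.some.inj h2).symm⟩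
    · rintro ⟨p, q, hp, hq, h⟩
      obtain rfl := Option.some.inj hp
      obtain rfl := Option.some.inj hq
      exact ⟨mul_ne_zero s.ne_zero s'.ne_zero, fun h2 => h (by rw [h2])⟩

theorem dot (a b : Option (Option K × Kˣ)) : ∑ i, ex a i * ey b i = 0 ↔ ¬ Dif a b := by
  unfold Dif
  rw [Fin.sum_univ_two]
  rcases a with _ | ⟨_ | t, s⟩ <;> rcases b with _ | ⟨_ | t', s'⟩ <;>
    simp only [ex, ey, Matrix.cons_val_zero, Matrix.cons_val_one]
  · simp
  · simp
  · simp
  · simp
  · simp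
  · simp [s.ne_zero, s'.ne_zero]
  · simp
  · simp [s.ne_zero, s'.ne_zero]
  · have e : (s : K) * -(s' * t') + s * t * s' = s * s' * (t - t') := by ring
    rw [e, mul_eq_zero, sub_eq_zero]
    constructor
    · rintro (h | h)
      · exact absurd h (mul_ne_zero s.ne_zero s'.ne_zero)
      · rintro ⟨p, q, hp, hq, h2⟩
        obtain rfl := Option.some.inj hp
        obtain rfl := Option.some.inj hq
        exact h2 (by rw [h])
    · intro h
      right
      by_contra h2
      exact h ⟨_, _, rfl, rfl, fun h3 => h2 (Option.some.inj h3)⟩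

theorem span_iff {A : Type} (x : A → Fin 2 → K) : Submodule.span K (Set.range x) = ⊤ ↔
    ∃ a b, x a 0 * x b 1 - x a 1 * x b 0 ≠ 0 := by
  constructor
  · intro h
    by_contra hcon
    push Not at hcon
    -- a functional which vanishes on the family
    have key : ∀ φ : (Fin 2 → K) →ₗ[K] K, (∀ a, φ (x a) = 0) → φ = 0 := by
      intro φ hφ
      have h1 : Submodule.span K (Set.range x) ≤ LinearMap.ker φ := by
        rw [Submodule.span_le]
        rintro _ ⟨a, rfl⟩
        exact hφ a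
      rw [h, top_le_iff] at h1
      exact LinearMap.ker_eq_top.1 h1
    have hall : ∀ a, x a = 0 := by
      intro a
      have h1 := key (x a 0 • LinearMap.proj 1 - x a 1 • LinearMap.proj 0) (fun b => by
        simpa using hcon a b)
      have h2 := LinearMap.congr_fun h1 ![0, 1]
      have h3 := LinearMap.congr_fun h1 ![1, 0]
      simp at h2 h3
      funext i
      fin_cases i
      · exact h2
      · exact h3
    have h1 := key (LinearMap.proj 0) (fun a => by rw [hall a]; rfl)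
    have h2 := LinearMap.congr_fun h1 ![1, 0]
    simp at h2
  · rintro ⟨a, b, h⟩
    rw [eq_top_iff]
    intro v _
    set d := x a 0 * x b 1 - x a 1 * x b 0 with hd
    have ha : x a ∈ Submodule.span K (Set.range x) := Submodule.subset_span ⟨a, rfl⟩
    have hb : x b ∈ Submodule.span K (Set.range x) := Submodule.subset_span ⟨b, rfl⟩
    clear_value d
    have hinv : d⁻¹ * d = 1 := inv_mul_cancel₀ h
    have hv : v = (d⁻¹ * (v 0 * x b 1 - v 1 * x b 0)) • x a +
        (d⁻¹ * (x a 0 * v 1 - x a 1 * v 0)) • x b := by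
      funext i
      fin_cases i
      · show v 0 = d⁻¹ * (v 0 * x b 1 - v 1 * x b 0) * x a 0 + d⁻¹ * (x a 0 * v 1 - x a 1 * v 0) * x b 0
        linear_combination (-v 0) * hinv + (d⁻¹ * v 0) * hd
      · show v 1 = d⁻¹ * (v 0 * x b 1 - v 1 * x b 0) * x a 1 + d⁻¹ * (x a 0 * v 1 - x a 1 * v 0) * x b 1
        linear_combination (-v 1) * hinv + (d⁻¹ * v 1) * hd
    rw [hv]
    exact Submodule.add_mem _ (Submodule.smul_mem _ _ ha) (Submodule.smul_mem _ _ hb)

end

/-- the relations on the support -/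
def rZ {A C : Type} (Z : A → C → Prop) (S : Set (A ⊕ C)) (u v : S) : Prop :=
  ∃ a c, u.1 = Sum.inl a ∧ v.1 = Sum.inr c ∧ Z a c

def rA {A C : Type} (S : Set (A ⊕ C)) (u v : S) : Prop :=
  ∃ a b : A, u.1 = Sum.inl a ∧ v.1 = Sum.inl b

def rC {A C : Type} (S : Set (A ⊕ C)) (u v : S) : Prop :=
  ∃ a b : C, u.1 = Sum.inr a ∧ v.1 = Sum.inr b

def Phi {A C T U : Type} (Z : A → C → Prop) (f : A ⊕ C → Option (T × U)) : Prop :=
  (∃ a b, Dif (f (Sum.inl a)) (f (Sum.inl b))) ∧ (∃ a b, Dif (f (Sum.inr a)) (f (Sum.inr b))) ∧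
    ∀ a c, Z a c → ¬ Dif (f (Sum.inl a)) (f (Sum.inr c))

def Psi {A C T : Type} (Z : A → C → Prop) (S : Set (A ⊕ C)) (c : S → T) : Prop :=
  (∀ u v, rZ Z S u v → c u = c v) ∧ ¬ (∀ u v, rA S u v → c u = c v) ∧ ¬ ∀ u v, rC S u v → c u = c v

theorem phi_iff {A C T U : Type} (Z : A → C → Prop) (S : Set (A ⊕ C)) (c : S → T) (s : S → U)
    (f : A ⊕ C → Option (T × U)) (h1 : ∀ v (hv : v ∈ S), f v = some (c ⟨v, hv⟩, s ⟨v, hv⟩))
    (h2 : ∀ v, v ∉ S → f v = none) : Phi Z f ↔ Psi Z S c := by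
  have hD : ∀ u v, Dif (f u) (f v) ↔ ∃ (hu : u ∈ S) (hv : v ∈ S), c ⟨u, hu⟩ ≠ c ⟨v, hv⟩ := by
    intro u v
    constructor
    · rintro ⟨p, q, hp, hq, h⟩
      have hu : u ∈ S := by
        by_contra hu
        rw [h2 u hu] at hp
        cases hp
      have hv : v ∈ S := by
        by_contra hv
        rw [h2 v hv] at hq
        cases hq
      rw [h1 u hu] at hp
      rw [h1 v hv] at hq
      obtain rfl := Option.some.inj hp
      obtain rfl := Option.some.inj hq
      exact ⟨hu, hv, h⟩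
    · rintro ⟨hu, hv, h⟩
      exact ⟨_, _, h1 u hu, h1 v hv, h⟩
  unfold Phi Psi
  constructor
  · rintro ⟨⟨a, b, hab⟩, ⟨a', b', hab'⟩, hZ⟩
    rw [hD] at hab hab'
    obtain ⟨hu, hv, h⟩ := hab
    obtain ⟨hu', hv', h'⟩ := hab'
    refine ⟨?_, fun hc => h (hc _ _ ⟨a, b, rfl, rfl⟩), fun hc => h' (hc _ _ ⟨a', b', rfl, rfl⟩)⟩
    rintro ⟨u, hu⟩ ⟨v, hv⟩ ⟨a, c', hua, hvc, hz⟩
    by_contra hne
    have hua' : u = Sum.inl a := hua
    have hvc' : v = Sum.inr c' := hvc
    subst hua'
    subst hvc'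
    exact hZ a c' hz ((hD _ _).2 ⟨hu, hv, hne⟩)
  · rintro ⟨hZ, hA, hC⟩
    push Not at hA hC
    obtain ⟨⟨u, hu⟩, ⟨v, hv⟩, ⟨a, b, hua, hvb⟩, hne⟩ := hA
    obtain ⟨⟨u', hu'⟩, ⟨v', hv'⟩, ⟨a', b', hua', hvb'⟩, hne'⟩ := hC
    have e1 : u = Sum.inl a := hua
    have e2 : v = Sum.inl b := hvb
    have e3 : u' = Sum.inr a' := hua'
    have e4 : v' = Sum.inr b' := hvb'
    subst e1
    subst e2
    subst e3
    subst e4
    refine ⟨⟨a, b, (hD _ _).2 ⟨hu, hv, hne⟩⟩, ⟨a', b', (hD _ _).2 ⟨hu', hv', hne'⟩⟩, ?_⟩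
    intro a c' hz hdif
    obtain ⟨h3, h4, h5⟩ := (hD _ _).1 hdif
    exact h5 (hZ _ _ ⟨a, c', rfl, rfl, hz⟩)

theorem main : S_TWO := by
  intro A C _ _ Z
  classical
  have hF : ∀ S : Set (A ⊕ C), ∃ F : Polynomial ℤ, ∀ (T : Type) [Finite T],
      (Nat.card {c : S → T // Psi Z S c} : ℤ) = F.eval (Nat.card T : ℤ) := fun S =>
    col3 S (rZ Z S) (rA S) (rC S)
  choose F hF using hF
  refine ⟨∑ S : Set (A ⊕ C), (F S).comp (.X + 1) * (.X - 1) ^ Nat.card S, fun K _ _ => ?_⟩
  have h1 : fullN 2 Z K = Nat.card {f : A ⊕ C → Option (Option K × Kˣ) // Phi Z f} := by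
    unfold fullN
    let E1 := Equiv.ofBijective (ex : Option (Option K × Kˣ) → Fin 2 → K) ex_bij
    let E2 := Equiv.ofBijective (ey : Option (Option K × Kˣ) → Fin 2 → K) ey_bij
    let E : (A ⊕ C → Option (Option K × Kˣ)) ≃ (A → Fin 2 → K) × (C → Fin 2 → K) :=
      (Equiv.sumArrowEquivProdArrow A C _).trans
        (Equiv.prodCongr (Equiv.arrowCongr (Equiv.refl A) E1) (Equiv.arrowCongr (Equiv.refl C) E2))
    symm
    refine Nat.card_congr (E.subtypeEquiv fun f => ?_)
    have e1 : (E f).1 = fun a => ex (f (Sum.inl a)) := rfl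
    have e2 : (E f).2 = fun a => ey (f (Sum.inr a)) := rfl
    rw [e1, e2, span_iff, span_iff]
    unfold Phi
    simp only [det_ex, det_ey, dot]
  rw [h1, supp_sum (A ⊕ C) (Option K) Kˣ (Phi Z) (Psi Z) (phi_iff Z), finsum_eq_sum_of_fintype,
    Polynomial.eval_finset_sum]
  push_cast
  refine Finset.sum_congr rfl fun S _ => ?_
  have hq : 1 ≤ Nat.card K := Nat.card_pos
  have hT : (Nat.card (Option K) : ℤ) = Nat.card K + 1 := by
    rw [Finite.card_option]
    push_cast
    ring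
  have hU : (Nat.card Kˣ : ℤ) = Nat.card K - 1 := by
    rw [Nat.card_units]
    push_cast [hq]
    ring
  rw [hF S (Option K), hT, hU, Polynomial.eval_mul, Polynomial.eval_comp]
  simp

end Pool.Agent.Helper90.RK2.TWO
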